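import Mathlib

/-!
# Irreducible modules of dimension four for the equitable presentation of `sl₂`
-/

open Polynomial

namespace Pool.Agent.X277.LP

section Nil

variable {K V : Type} [Field K] [CharZero K] [AddCommGroup V] [Module K V] [FiniteDimensional K V]

omit [CharZero K] [FiniteDimensional K V] in
lemma comm_pow (h e : Module.End K V) (c : K) (he : h * e - e * h = c • e) (n : ℕ) :
    h * e ^ n - e ^ n * h = (c * n) • e ^ n := by
  induction n with
  | zero => simp
  | succ n ih =>
    have h1 : h * e ^ (n + 1) - e ^ (n + 1) * h =
        (h * e ^ n - e ^ n * h) * e + e ^ n * (h * e - e * h) := by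
      rw [pow_succ]
      noncomm_ring
    rw [h1, ih, he, smul_mul_assoc, mul_smul_comm, ← pow_succ, ← add_smul]
    congr 1
    push_cast
    ring

omit [CharZero K] [FiniteDimensional K V] in
lemma comm_aeval (h e : Module.End K V) (c : K) (he : h * e - e * h = c • e) (q : K[X]) :
    h * aeval e q - aeval e q * h = c • aeval e (X * derivative q) := by
  induction q using Polynomial.induction_on' with
  | add p q hp hq =>
    rw [map_add, mul_add, add_mul, derivative_add, mul_add X, map_add, smul_add, ← hp, ← hq]
    abel
  | monomial n a =>
    rw [derivative_monomial, aeval_monomial, Module.algebraMap_end_eq_smul_id]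
    have h1 : h * (a • LinearMap.id * e ^ n) - (a • LinearMap.id * e ^ n) * h =
        a • (h * e ^ n - e ^ n * h) := by
      change h * ((a • (1 : Module.End K V)) * e ^ n) - ((a • (1 : Module.End K V)) * e ^ n) * h = _
      rw [smul_mul_assoc, one_mul, mul_smul_comm, smul_mul_assoc, smul_sub]
    rw [h1, comm_pow h e c he, map_mul, aeval_X, aeval_monomial, Module.algebraMap_end_eq_smul_id]
    change _ = c • (e * (((a * n) • (1 : Module.End K V)) * e ^ (n - 1)))
    rw [smul_mul_assoc, one_mul, mul_smul_comm, ← pow_succ']
    cases n with
    | zero => simp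
    | succ n =>
      rw [Nat.succ_sub_one, smul_smul, smul_smul]
      congr 1
      push_cast
      ring

/-- An element `e` with `[h, e] = c e`, `c ≠ 0`, is nilpotent. -/
theorem nilp (h e : Module.End K V) (c : K) (hc : c ≠ 0) (he : h * e - e * h = c • e) :
    IsNilpotent e := by
  set p := minpoly K e with hp
  have hmon : p.Monic := minpoly.monic (Algebra.IsIntegral.isIntegral e)
  have h1 : aeval e (X * derivative p) = 0 := by
    have := comm_aeval h e c he p
    rw [hp, minpoly.aeval, mul_zero, zero_mul, sub_zero] at this
    rcases smul_eq_zero.1 this.symm with h2 | h2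
    · exact absurd h2 hc
    · exact h2
  obtain ⟨q, hq⟩ := minpoly.dvd K e h1
  rw [← hp] at hq
  have hdeg : (X * derivative p).natDegree ≤ p.natDegree := by
    by_cases h0 : derivative p = 0
    · rw [h0, mul_zero, natDegree_zero]
      exact Nat.zero_le _
    · have h2 : (derivative p).natDegree < p.natDegree := natDegree_derivative_lt (by
        intro h3
        apply h0
        rw [eq_C_of_natDegree_eq_zero h3, derivative_C])
      rw [natDegree_X_mul h0]
      omega
  have hcoef : ∀ m : ℕ, (m : K) * p.coeff m = (p.natDegree : K) * p.coeff m := by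
    by_cases hq0 : q = 0
    · rw [hq0, mul_zero] at hq
      have h3 : derivative p = 0 := by
        rcases mul_eq_zero.1 hq with h4 | h4
        · exact absurd h4 X_ne_zero
        · exact h4
      have h4 : p.natDegree = 0 := derivative_eq_zero.1 h3
      intro m
      cases m with
      | zero => simp [h4]
      | succ m =>
        rw [coeff_eq_zero_of_natDegree_lt (by omega)]
        simp
    · rw [hq, natDegree_mul hmon.ne_zero hq0] at hdeg
      have hq1 : q.natDegree = 0 := by omega
      rw [eq_C_of_natDegree_eq_zero hq1] at hq
      have h5 : ∀ m : ℕ, (m : K) * p.coeff m = q.coeff 0 * p.coeff m := by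
        intro m
        have := congrArg (fun r => r.coeff m) hq
        simp only [coeff_mul_C] at this
        cases m with
        | zero =>
          rw [coeff_X_mul_zero] at this
          rw [Nat.cast_zero, zero_mul, mul_comm, ← this]
        | succ m =>
          rw [coeff_X_mul, coeff_derivative] at this
          rw [mul_comm (q.coeff 0), ← this]
          push_cast
          ring
      have h6 := h5 p.natDegree
      rw [hmon.coeff_natDegree, mul_one, mul_one] at h6
      rw [h6]
      exact h5
  have hpX : p = X ^ p.natDegree := by
    ext m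
    rw [coeff_X_pow]
    split_ifs with h7
    · rw [h7, hmon.coeff_natDegree]
    · have := hcoef m
      have h8 : ((m : K) - p.natDegree) * p.coeff m = 0 := by rw [sub_mul, this, sub_self]
      rcases mul_eq_zero.1 h8 with h9 | h9
      · exfalso
        apply h7
        have : (m : K) = p.natDegree := sub_eq_zero.1 h9
        exact_mod_cast this
      · exact h9
  refine ⟨p.natDegree, ?_⟩
  have : aeval e p = 0 := minpoly.aeval K e
  rw [hpX, map_pow, aeval_X] at this
  exact this

omit [CharZero K] [FiniteDimensional K V] in
/-- `e f^(n+1) - f^(n+1) e = (n+1) f^n (h - n)`. -/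
lemma e_f_pow (h e f : Module.End K V) (hef : e * f - f * e = h)
    (hf : h * f - f * h = (-2 : K) • f) (n : ℕ) :
    e * f ^ (n + 1) = f ^ (n + 1) * e + ((n : K) + 1) • (f ^ n * (h - (n : K) • 1)) := by
  induction n with
  | zero =>
    simp only [zero_add, pow_one, pow_zero, Nat.cast_zero, zero_smul, sub_zero, one_mul, one_smul]
    rw [← hef]
    abel
  | succ n ih =>
    have h1 : e * f ^ (n + 1 + 1) = (e * f ^ (n + 1)) * f := by rw [mul_assoc, ← pow_succ]
    have h2 : h * f = f * h - (2 : K) • f := by
      have := hf
      rw [neg_smul] at this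
      rw [sub_eq_add_neg, ← this]
      abel
    have h3 : e * f = f * e + h := by rw [← hef]; abel
    rw [h1, ih, add_mul, mul_assoc (f ^ (n + 1)) e f, h3, smul_mul_assoc, mul_assoc (f ^ n),
      sub_mul, h2, smul_mul_assoc, one_mul, pow_succ f (n + 1), mul_add]
    have h4 : f ^ n * (f * h - (2 : K) • f - (n : K) • f) =
        f ^ (n + 1) * h - ((2 : K) + n) • f ^ (n + 1) := by
      rw [pow_succ, add_smul, mul_sub, mul_sub, mul_smul_comm, mul_smul_comm, mul_assoc]
      abel
    rw [h4, mul_sub (f ^ (n + 1)) h, mul_smul_comm, mul_one, mul_assoc (f ^ (n + 1)) f e, smul_sub,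
      smul_sub, smul_smul, smul_smul]
    push_cast
    module

/-- Existence of a primitive vector. -/
theorem exists_prim [Nontrivial V] (h e f : Module.End K V) (hef : e * f - f * e = h)
    (he : h * e - e * h = (2 : K) • e) (hf : h * f - f * h = (-2 : K) • f) :
    ∃ (v : V) (μ : K), v ≠ 0 ∧ e v = 0 ∧ h v = μ • v := by
  have hne : IsNilpotent e := nilp h e 2 two_ne_zero he
  have hnf : IsNilpotent f := nilp h f (-2) (by norm_num) hf
  -- a vector killed by `e`
  obtain ⟨v, hv0, hv⟩ : ∃ v : V, v ≠ 0 ∧ e v = 0 := by
    by_contra hcon
    push Not at hcon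
    have hinj : Function.Injective e := by
      rw [injective_iff_map_eq_zero]
      intro a ha
      by_contra h0
      exact hcon a h0 ha
    obtain ⟨n, hn⟩ := hne
    obtain ⟨v, hv⟩ := exists_ne (0 : V)
    have h1 : ∀ m, (e ^ m) v ≠ 0 := by
      intro m
      induction m with
      | zero => simpa using hv
      | succ m ih =>
        rw [pow_succ', Module.End.mul_apply]
        exact fun h2 => ih (hinj (h2.trans (map_zero e).symm))
    exact h1 n (by rw [hn]; rfl)
  -- polynomials in `h`
  have heh : ∀ w, e w = 0 → e (h w) = 0 := by
    intro w hw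
    have := DFunLike.congr_fun he w
    simp only [LinearMap.sub_apply, Module.End.mul_apply, LinearMap.smul_apply, hw, map_zero,
      smul_zero, zero_sub, neg_eq_zero] at this
    exact this
  have key : ∀ n : ℕ, ∀ w, e w = 0 →
      (e ^ n) ((f ^ n) w) = (n.factorial : K) • (aeval h (descPochhammer K n)) w := by
    intro n
    induction n with
    | zero => intro w hw; simp
    | succ n ih =>
      intro w hw
      have h1 := DFunLike.congr_fun (e_f_pow h e f hef hf n) w
      simp only [Module.End.mul_apply, LinearMap.add_apply, LinearMap.smul_apply,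
        LinearMap.sub_apply, Module.End.one_apply, hw, map_zero, zero_add] at h1
      rw [pow_succ e n, Module.End.mul_apply, h1, map_smul, ih _ (by
        rw [map_sub, heh w hw, map_smul, hw, smul_zero, sub_zero]), descPochhammer_succ_right,
        map_mul, smul_smul, Module.End.mul_apply, Nat.factorial_succ]
      have h2 : (aeval h (X - (n : K[X]))) w = h w - (n : K) • w := by
        rw [map_sub, aeval_X, map_natCast, LinearMap.sub_apply, Module.End.natCast_apply,
          Nat.cast_smul_eq_nsmul]
      rw [h2]
      congr 1
      push_cast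
      ring
  obtain ⟨N, hN⟩ := hnf
  have hzero : (aeval h (descPochhammer K N)) v = 0 := by
    have := key N v hv
    rw [hN, LinearMap.zero_apply, map_zero] at this
    rcases smul_eq_zero.1 this.symm with h1 | h1
    · exact absurd h1 (by exact_mod_cast N.factorial_ne_zero)
    · exact h1
  have hker : ∀ n : ℕ, e ((aeval h (descPochhammer K n)) v) = 0 := by
    intro n
    induction n with
    | zero => simpa using hv
    | succ n ih =>
      rw [descPochhammer_succ_right, mul_comm, map_mul, Module.End.mul_apply]
      have h2 : ∀ w, (aeval h (X - (n : K[X]))) w = h w - (n : K) • w := by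
        intro w
        rw [map_sub, aeval_X, map_natCast, LinearMap.sub_apply, Module.End.natCast_apply,
          Nat.cast_smul_eq_nsmul]
      rw [h2, map_sub, heh _ ih, map_smul, ih, smul_zero, sub_zero]
  classical
  have hex : ∃ n : ℕ, (aeval h (descPochhammer K n)) v = 0 := ⟨N, hzero⟩
  set m := Nat.find hex with hm
  have hm0 : (aeval h (descPochhammer K m)) v = 0 := Nat.find_spec hex
  have hmpos : m ≠ 0 := by
    intro h0
    rw [h0] at hm0
    simp at hm0
    exact hv0 hm0
  obtain ⟨n, hn⟩ := Nat.exists_eq_succ_of_ne_zero hmpos
  refine ⟨(aeval h (descPochhammer K n)) v, (n : K), Nat.find_min hex (by omega), hker n, ?_⟩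
  rw [hn, Nat.succ_eq_add_one, descPochhammer_succ_right, mul_comm, map_mul, Module.End.mul_apply,
    map_sub, aeval_X, map_natCast, LinearMap.sub_apply, Module.End.natCast_apply, sub_eq_zero]
    at hm0
  rw [hm0, Nat.cast_smul_eq_nsmul]

end Nil

end Pool.Agent.X277.LP
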