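import Pool.Agent.X277.LP.Sl2

/-!
# The four-dimensional irreducible module in the equitable presentation
-/

open Module

namespace Pool.Agent.X277.LP

section Str

variable {K V : Type} [Field K] [CharZero K] [AddCommGroup V] [Module K V] [FiniteDimensional K V]

/-- Structure of a four-dimensional irreducible module for an `sl₂`-triple. -/
theorem triple_structure (hV : finrank K V = 4) (h e f : Module.End K V)
    (hef : e * f - f * e = h)
    (he : h * e - e * h = (2 : K) • e) (hf : h * f - f * h = (-2 : K) • f)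
    (hirr : ∀ W : Submodule K V, (∀ w ∈ W, h w ∈ W) → (∀ w ∈ W, e w ∈ W) → (∀ w ∈ W, f w ∈ W) →
      W = ⊥ ∨ W = ⊤) :
    ∃ b : Basis (Fin 4) K V,
      (h (b 0) = (3 : K) • b 0 ∧ h (b 1) = b 1 ∧ h (b 2) = (-1 : K) • b 2 ∧
        h (b 3) = (-3 : K) • b 3) ∧
      (f (b 0) = b 1 ∧ f (b 1) = b 2 ∧ f (b 2) = b 3 ∧ f (b 3) = 0) ∧
      (e (b 0) = 0 ∧ e (b 1) = (3 : K) • b 0 ∧ e (b 2) = (4 : K) • b 1 ∧
        e (b 3) = (3 : K) • b 2) := by
  have : Nontrivial V := Module.nontrivial_of_finrank_pos (R := K) (by omega)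
  obtain ⟨v, μ, hv0, hev, hhv⟩ := exists_prim h e f hef he hf
  have hnf : IsNilpotent f := nilp h f (-2) (by norm_num) hf
  have hw : ∀ i : ℕ, h ((f ^ i) v) = (μ - 2 * i) • (f ^ i) v := by
    intro i
    have h1 := DFunLike.congr_fun (comm_pow h f (-2) hf i) v
    simp only [LinearMap.sub_apply, Module.End.mul_apply, LinearMap.smul_apply, hhv,
      map_smul] at h1
    rw [sub_eq_iff_eq_add.1 h1, ← add_smul]
    congr 1
    ring
  have hew : ∀ i : ℕ, e ((f ^ (i + 1)) v) = (((i : K) + 1) * (μ - i)) • (f ^ i) v := by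
    intro i
    have h1 := DFunLike.congr_fun (e_f_pow h e f hef hf i) v
    simp only [Module.End.mul_apply, LinearMap.add_apply, LinearMap.smul_apply,
      LinearMap.sub_apply, Module.End.one_apply, hev, map_zero, zero_add, hhv] at h1
    rw [h1, ← sub_smul, map_smul, smul_smul]
  have hfw : ∀ i : ℕ, f ((f ^ i) v) = (f ^ (i + 1)) v := by
    intro i
    rw [pow_succ', Module.End.mul_apply]
  -- the span of all `f ^ i v` is everything
  have hspan : Submodule.span K (Set.range fun i : ℕ => (f ^ i) v) = ⊤ := by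
    have hmem : ∀ i : ℕ, (f ^ i) v ∈ Submodule.span K (Set.range fun i : ℕ => (f ^ i) v) :=
      fun i => Submodule.subset_span ⟨i, rfl⟩
    have hinv : ∀ g : Module.End K V, (∀ i : ℕ, g ((f ^ i) v) ∈
        Submodule.span K (Set.range fun i : ℕ => (f ^ i) v)) →
        ∀ w ∈ Submodule.span K (Set.range fun i : ℕ => (f ^ i) v),
          g w ∈ Submodule.span K (Set.range fun i : ℕ => (f ^ i) v) := by
      intro g hg w hw'
      induction hw' using Submodule.span_induction with
      | mem x hx => obtain ⟨i, rfl⟩ := hx; exact hg i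
      | zero => rw [map_zero]; exact Submodule.zero_mem _
      | add x y _ _ hx hy => rw [map_add]; exact Submodule.add_mem _ hx hy
      | smul a x _ hx => rw [map_smul]; exact Submodule.smul_mem _ _ hx
    rcases hirr (Submodule.span K (Set.range fun i : ℕ => (f ^ i) v))
      (hinv h fun i => by rw [hw]; exact Submodule.smul_mem _ _ (hmem i))
      (hinv e fun i => by
        cases i with
        | zero => rw [pow_zero, Module.End.one_apply, hev]; exact Submodule.zero_mem _
        | succ i => rw [hew]; exact Submodule.smul_mem _ _ (hmem i))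
      (hinv f fun i => by rw [hfw]; exact hmem _) with h1 | h1
    · exfalso
      apply hv0
      have := hmem 0
      rw [h1] at this
      simpa using this
    · exact h1
  -- the least `m` with `f ^ m v = 0`
  classical
  have hex : ∃ n : ℕ, (f ^ n) v = 0 := by
    obtain ⟨n, hn⟩ := hnf
    exact ⟨n, by rw [hn]; rfl⟩
  set m := Nat.find hex with hm
  have hm0 : (f ^ m) v = 0 := Nat.find_spec hex
  have hlt : ∀ i, i < m → (f ^ i) v ≠ 0 := fun i hi => Nat.find_min hex hi
  have hge : ∀ i, m ≤ i → (f ^ i) v = 0 := by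
    intro i hi
    obtain ⟨k, rfl⟩ := Nat.exists_eq_add_of_le hi
    rw [add_comm, pow_add, Module.End.mul_apply, hm0, map_zero]
  have hli : LinearIndependent K (fun i : Fin m => (f ^ (i : ℕ)) v) := by
    refine Module.End.eigenvectors_linearIndependent' h (fun i : Fin m => μ - 2 * ((i : ℕ) : K))
      ?_ _ ?_
    · intro i j hij
      have h1 : (μ - 2 * ((i : ℕ) : K)) = μ - 2 * ((j : ℕ) : K) := hij
      have h2 : ((i : ℕ) : K) = ((j : ℕ) : K) := by
        have h3 : (2 : K) * ((i : ℕ) : K) = 2 * ((j : ℕ) : K) := by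
          rw [← sub_eq_zero] at h1 ⊢
          rw [← neg_eq_zero, ← h1]
          ring
        exact mul_left_cancel₀ two_ne_zero h3
      exact Fin.ext (by exact_mod_cast h2)
    · intro i
      exact ⟨Module.End.mem_eigenspace_iff.2 (hw i), hlt i i.2⟩
  have hsp : Submodule.span K (Set.range fun i : Fin m => (f ^ (i : ℕ)) v) = ⊤ := by
    rw [eq_top_iff, ← hspan, Submodule.span_le]
    rintro _ ⟨i, rfl⟩
    by_cases hi : i < m
    · exact Submodule.subset_span ⟨⟨i, hi⟩, rfl⟩
    · change (f ^ i) v ∈ _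
      rw [hge i (by omega)]
      exact Submodule.zero_mem _
  let b := Basis.mk hli hsp.ge
  have hm4 : m = 4 := by
    have := Module.finrank_eq_card_basis b
    rw [hV, Fintype.card_fin] at this
    exact this.symm
  clear_value m
  subst hm4
  have hμ : μ = 3 := by
    have h1 := hew 3
    rw [show (3 : ℕ) + 1 = 4 from rfl, hm0, map_zero] at h1
    have h2 := smul_eq_zero.1 h1.symm
    rcases h2 with h3 | h3
    · rcases mul_eq_zero.1 h3 with h4 | h4
      · exfalso
        have : ((3 : ℕ) : K) + 1 = 4 := by norm_num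
        rw [this] at h4
        exact absurd h4 (by norm_num)
      · have := sub_eq_zero.1 h4
        exact_mod_cast this
    · exact absurd h3 (hlt 3 (by norm_num))
  have hb : ∀ i : Fin 4, b i = (f ^ (i : ℕ)) v := fun i => by simp [b]
  have hb0 : b 0 = (f ^ 0) v := hb 0
  have hb1 : b 1 = (f ^ 1) v := hb 1
  have hb2 : b 2 = (f ^ 2) v := hb 2
  have hb3 : b 3 = (f ^ 3) v := hb 3
  refine ⟨b, ⟨?_, ?_, ?_, ?_⟩, ⟨?_, ?_, ?_, ?_⟩, ⟨?_, ?_, ?_, ?_⟩⟩
  · rw [hb0, hw, hμ]; norm_num
  · rw [hb1, hw, hμ]; norm_num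
  · rw [hb2, hw, hμ]; norm_num
  · rw [hb3, hw, hμ]; norm_num
  · rw [hb0, hb1, hfw]
  · rw [hb1, hb2, hfw]
  · rw [hb2, hb3, hfw]
  · rw [hb3, hfw, hm0]
  · rw [hb0, pow_zero, Module.End.one_apply, hev]
  · rw [hb1, hb0, hew, hμ]; norm_num
  · rw [hb2, hb1, hew, hμ]; norm_num
  · rw [hb3, hb2, hew, hμ]; norm_num

/-- Structure of a four-dimensional irreducible module in the equitable presentation. -/
theorem equitable_structure (hV : finrank K V = 4) (X Y Z : Module.End K V)
    (hXY : X * Y - Y * X = (2 : K) • X + (2 : K) • Y)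
    (hYZ : Y * Z - Z * Y = (2 : K) • Y + (2 : K) • Z)
    (hZX : Z * X - X * Z = (2 : K) • Z + (2 : K) • X)
    (hirr : ∀ W : Submodule K V, (∀ w ∈ W, X w ∈ W) → (∀ w ∈ W, Y w ∈ W) → (∀ w ∈ W, Z w ∈ W) →
      W = ⊥ ∨ W = ⊤) :
    ∃ b : Basis (Fin 4) K V,
      LinearMap.toMatrix b b X = !![-3, 0, 0, 0; -2, -1, 0, 0; 0, -2, 1, 0; 0, 0, -2, 3] ∧
      LinearMap.toMatrix b b Y = !![3, 0, 0, 0; 0, 1, 0, 0; 0, 0, -1, 0; 0, 0, 0, -3] ∧
      LinearMap.toMatrix b b Z = !![-3, 6, 0, 0; 0, -1, 8, 0; 0, 0, 1, 6; 0, 0, 0, 3] := by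
  obtain ⟨e, he⟩ : ∃ e : Module.End K V, e = (2 : K)⁻¹ • (Y + Z) := ⟨_, rfl⟩
  obtain ⟨f, hf⟩ : ∃ f : Module.End K V, f = (-(2 : K)⁻¹) • (X + Y) := ⟨_, rfl⟩
  have hX : X = (-2 : K) • f - Y := by
    rw [hf, smul_smul, show (-2 : K) * -(2 : K)⁻¹ = 1 by norm_num, one_smul]
    abel
  have hZ : Z = (2 : K) • e - Y := by
    rw [he, smul_smul, mul_inv_cancel₀ two_ne_zero, one_smul]
    abel
  have t1 : e * f - f * e = Y := by
    have : e * f - f * e = (-(2 : K)⁻¹ * (2 : K)⁻¹) •
        (-(X * Y - Y * X) + (Z * X - X * Z) - (Y * Z - Z * Y)) := by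
      rw [he, hf]
      simp only [smul_mul_assoc, mul_smul_comm, mul_add, add_mul]
      module
    rw [this, hXY, hYZ, hZX]
    have h2 : (-((2 : K) • X + (2 : K) • Y) + ((2 : K) • Z + (2 : K) • X) -
        ((2 : K) • Y + (2 : K) • Z)) = (-4 : K) • Y := by
      module
    rw [h2, smul_smul, show (-(2 : K)⁻¹ * (2 : K)⁻¹ * -4) = 1 by norm_num, one_smul]
  have t2 : Y * e - e * Y = (2 : K) • e := by
    have : Y * e - e * Y = (2 : K)⁻¹ • (Y * Z - Z * Y) := by
      rw [he]
      simp only [smul_mul_assoc, mul_smul_comm, mul_add, add_mul]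
      rw [← smul_sub]
      congr 1
      abel
    rw [this, hYZ, he]
    module
  have t3 : Y * f - f * Y = (-2 : K) • f := by
    have : Y * f - f * Y = (2 : K)⁻¹ • (X * Y - Y * X) := by
      rw [hf]
      simp only [smul_mul_assoc, mul_smul_comm, mul_add, add_mul]
      rw [← smul_sub, neg_smul, ← smul_neg]
      congr 1
      abel
    rw [this, hXY, hf]
    module
  obtain ⟨b, ⟨h0, h1, h2, h3⟩, ⟨f0, f1, f2, f3⟩, ⟨e0, e1, e2, e3⟩⟩ :=
    triple_structure hV Y e f t1 t2 t3 (fun W w1 w2 w3 => hirr W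
        (fun w hw => by
          rw [hX, LinearMap.sub_apply, LinearMap.smul_apply]
          exact W.sub_mem (W.smul_mem _ (w3 w hw)) (w1 w hw)) w1
        (fun w hw => by
          rw [hZ, LinearMap.sub_apply, LinearMap.smul_apply]
          exact W.sub_mem (W.smul_mem _ (w2 w hw)) (w1 w hw)))
  refine ⟨b, ?_, ?_, ?_⟩
  · ext i j
    rw [LinearMap.toMatrix_apply, hX, LinearMap.sub_apply, LinearMap.smul_apply]
    fin_cases j <;> fin_cases i <;>
      simp [h0, h1, h2, h3, f0, f1, f2, f3]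
  · ext i j
    rw [LinearMap.toMatrix_apply]
    fin_cases j <;> fin_cases i <;>
      simp [h0, h1, h2, h3]
  · ext i j
    rw [LinearMap.toMatrix_apply, hZ, LinearMap.sub_apply, LinearMap.smul_apply]
    fin_cases j <;> fin_cases i <;>
      simp [h0, h1, h2, h3, e0, e1, e2, e3] <;> norm_num

end Str

end Pool.Agent.X277.LP
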