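import Mathlib

/-!
# Finite-dimensional modules for the equitable presentation of `U_q(sl₂)`

The relations are used in the form `Q X Y - Y X = Q - 1` etc., with `Q = q²`.
-/

open Polynomial Module

namespace Pool.Agent.X277.LQ

section Gen

variable {K V : Type} [Field K] [AddCommGroup V] [Module K V]

lemma qcomm_pow (Y E : Module.End K V) (Q : K) (h : E * Y = Q • (Y * E)) (n : ℕ) :
    E ^ n * Y = Q ^ n • (Y * E ^ n) := by
  induction n with
  | zero => simp
  | succ n ih =>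
    rw [pow_succ', mul_assoc, ih, mul_smul_comm, ← mul_assoc, h, smul_mul_assoc, smul_smul,
      mul_assoc, pow_succ Q]

lemma qcomm_aeval (Y E : Module.End K V) (Q : K) (h : E * Y = Q • (Y * E)) (r : K[X]) :
    aeval E r * Y = Y * aeval E (r.comp (C Q * X)) := by
  induction r using Polynomial.induction_on' with
  | add p q hp hq => rw [map_add, add_mul, add_comp, map_add, mul_add, hp, hq]
  | monomial n a =>
    rw [← C_mul_X_pow_eq_monomial, mul_comp, C_comp, pow_comp, X_comp, mul_pow]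
    simp only [map_mul, aeval_C, map_pow, aeval_X, Module.algebraMap_end_eq_smul_id]
    change a • (1 : Module.End K V) * E ^ n * Y = Y * (a • (1 : Module.End K V) *
      ((Q • (1 : Module.End K V)) ^ n * E ^ n))
    rw [_root_.smul_pow, one_pow, smul_mul_assoc, one_mul, smul_mul_assoc, qcomm_pow Y E Q h, smul_mul_assoc, one_mul,
      smul_mul_assoc, one_mul, mul_smul_comm, mul_smul_comm]

variable [FiniteDimensional K V]

/-- `q`-commutation with an injective map implies nilpotency. -/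
theorem qnilp (Y E : Module.End K V) (Q : K) (hQ0 : Q ≠ 0) (hQ : ∀ n : ℕ, n ≠ 0 → Q ^ n ≠ 1)
    (hY : Function.Injective Y) (h : E * Y = Q • (Y * E)) : IsNilpotent E := by
  set p := minpoly K E with hp
  have hmon : p.Monic := minpoly.monic (Algebra.IsIntegral.isIntegral E)
  have hpE : aeval E p = 0 := minpoly.aeval K E
  have h1 : aeval E (p.comp (C Q * X)) = 0 := by
    have h2 := qcomm_aeval Y E Q h p
    rw [hpE, zero_mul] at h2
    refine LinearMap.ext fun v => hY ?_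
    rw [LinearMap.zero_apply, map_zero, ← Module.End.mul_apply, ← h2, LinearMap.zero_apply]
  set d := C (Q ^ p.natDegree) * p - p.comp (C Q * X) with hd
  have hdE : aeval E d = 0 := by
    rw [hd, map_sub, map_mul, hpE, mul_zero, h1, sub_zero]
  have hdc : ∀ k, d.coeff k = p.coeff k * (Q ^ p.natDegree - Q ^ k) := by
    intro k
    rw [hd, coeff_sub, coeff_C_mul, comp_C_mul_X_coeff]
    ring
  have hd0 : d = 0 := by
    by_contra hne
    have h2 := minpoly.degree_le_of_ne_zero K E hne hdE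
    have h3 : d.degree < p.degree := by
      rw [degree_eq_natDegree hmon.ne_zero, degree_lt_iff_coeff_zero]
      intro m hm
      rw [hdc]
      rcases eq_or_lt_of_le hm with h4 | h4
      · rw [← h4, sub_self, mul_zero]
      · rw [coeff_eq_zero_of_natDegree_lt h4, zero_mul]
    exact absurd h2 (not_le.2 h3)
  have hpX : p = X ^ p.natDegree := by
    ext m
    rw [coeff_X_pow]
    split_ifs with h7
    · rw [h7, hmon.coeff_natDegree]
    · by_cases hm : p.natDegree < m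
      · exact coeff_eq_zero_of_natDegree_lt hm
      · have h8 := hdc m
        rw [hd0, coeff_zero] at h8
        rcases mul_eq_zero.1 h8.symm with h9 | h9
        · exact h9
        · exfalso
          have hlt : m < p.natDegree := by omega
          obtain ⟨k, hk⟩ := Nat.exists_eq_add_of_lt hlt
          have h10 : Q ^ m * Q ^ (k + 1) = Q ^ m * 1 := by
            rw [← pow_add, mul_one, ← add_assoc, ← hk]
            exact sub_eq_zero.1 h9
          exact hQ (k + 1) (by omega) (mul_left_cancel₀ (pow_ne_zero _ hQ0) h10)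
  refine ⟨p.natDegree, ?_⟩
  have : aeval E p = 0 := minpoly.aeval K E
  rw [hpX, map_pow, aeval_X] at this
  exact this

omit [FiniteDimensional K V] in
lemma pow_comm_X (X Y : Module.End K V) (Q : K) (h : Q • (X * Y) - Y * X = (Q - 1) • 1) (k : ℕ) :
    Y ^ (k + 1) * X = Q ^ (k + 1) • (X * Y ^ (k + 1)) - (Q ^ (k + 1) - 1) • Y ^ k := by
  have h0 : Y * X = Q • (X * Y) - (Q - 1) • 1 := by rw [← h]; abel
  induction k with
  | zero => simpa using h0
  | succ k ih =>
    rw [pow_succ', mul_assoc, ih, mul_sub, mul_smul_comm, mul_smul_comm, ← mul_assoc, h0, sub_mul,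
      smul_mul_assoc, smul_mul_assoc, one_mul, mul_assoc, ← pow_succ', ← pow_succ' Y k, smul_sub,
      smul_smul, smul_smul]
    module

/-- `Y` acts injectively. -/
theorem inj_Y (X Y : Module.End K V) (Q : K) (hQ : ∀ n : ℕ, n ≠ 0 → Q ^ n ≠ 1)
    (h : Q • (X * Y) - Y * X = (Q - 1) • 1) : Function.Injective Y := by
  classical
  have hex : ∃ k : ℕ, LinearMap.ker (Y ^ k) = LinearMap.ker (Y ^ (k + 1)) := by
    obtain ⟨k, _, hk⟩ := Module.End.exists_ker_pow_eq_ker_pow_succ Y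
    exact ⟨k, hk⟩
  obtain ⟨n, hn⟩ : ∃ n, n = Nat.find hex := ⟨_, rfl⟩
  have hn1 : LinearMap.ker (Y ^ n) = LinearMap.ker (Y ^ (n + 1)) := hn ▸ Nat.find_spec hex
  cases n with
  | zero =>
    rw [← LinearMap.ker_eq_bot, ← pow_one Y]
    rw [zero_add] at hn1
    rw [← hn1, pow_zero, LinearMap.ker_eq_bot]
    exact fun a b hab => hab
  | succ m =>
    exfalso
    have hmin := Nat.find_min hex (m := m) (by omega)
    apply hmin
    apply le_antisymm
    · intro v hv
      rw [LinearMap.mem_ker] at hv ⊢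
      rw [pow_succ', Module.End.mul_apply, hv, map_zero]
    · intro v hv
      have hv1 : (Y ^ (m + 1)) v = 0 := hv
      have hv2 : (Y ^ (m + 2)) v = 0 := by
        rw [pow_succ', Module.End.mul_apply, hv1, map_zero]
      have h2 : X v ∈ LinearMap.ker (Y ^ (m + 1 + 1)) := by
        rw [LinearMap.mem_ker, ← Module.End.mul_apply, pow_comm_X X Y Q h]
        simp only [LinearMap.sub_apply, LinearMap.smul_apply, Module.End.mul_apply]
        rw [hv1, show (Y ^ (m + 1 + 1)) v = 0 from hv2, map_zero, smul_zero, smul_zero, sub_zero]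
      rw [← hn1, LinearMap.mem_ker, ← Module.End.mul_apply, pow_comm_X X Y Q h] at h2
      simp only [LinearMap.sub_apply, LinearMap.smul_apply, Module.End.mul_apply] at h2
      rw [hv1, map_zero, smul_zero, zero_sub, neg_eq_zero] at h2
      rcases smul_eq_zero.1 h2 with h3 | h3
      · exact absurd (sub_eq_zero.1 h3) (hQ (m + 1) (by omega))
      · exact h3

/-! ### The raising and lowering maps -/

section EF

variable {X Y Z : Module.End K V} {Q : K}

omit [FiniteDimensional K V] in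
/-- `Y F = Q F Y` for `F = 1 - X Y`. -/
lemma Y_F (hXY : Q • (X * Y) - Y * X = (Q - 1) • 1) :
    Y * (1 - X * Y) = Q • ((1 - X * Y) * Y) := by
  have h0 : Y * X = Q • (X * Y) - (Q - 1) • 1 := by rw [← hXY]; abel
  rw [mul_sub, ← mul_assoc, h0, sub_mul, sub_mul, smul_mul_assoc, smul_mul_assoc, one_mul, mul_one,
    mul_assoc X Y Y]
  module

omit [FiniteDimensional K V] in
/-- `E Y = Q Y E` for `E = 1 - Y Z`. -/
lemma E_Y (hYZ : Q • (Y * Z) - Z * Y = (Q - 1) • 1) :
    (1 - Y * Z) * Y = Q • (Y * (1 - Y * Z)) := by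
  have h0 : Z * Y = Q • (Y * Z) - (Q - 1) • 1 := by rw [← hYZ]; abel
  rw [sub_mul, mul_assoc, h0, mul_sub, mul_sub, mul_smul_comm, mul_smul_comm, one_mul, mul_one]
  module

omit [FiniteDimensional K V] in
/-- The commutation of `E = 1 - Y Z` and `F = 1 - X Y`. -/
lemma E_F (hQ0 : Q ≠ 0) (hXY : Q • (X * Y) - Y * X = (Q - 1) • 1)
    (hYZ : Q • (Y * Z) - Z * Y = (Q - 1) • 1) (hZX : Q • (Z * X) - X * Z = (Q - 1) • 1) :
    (1 - Y * Z) * (1 - X * Y) =
      Q • ((1 - X * Y) * (1 - Y * Z)) - (1 - Q⁻¹) • (1 - Y * Y) := by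
  have h1 : Y * X = Q • (X * Y) - (Q - 1) • 1 := by rw [← hXY]; abel
  have h2 : Z * Y = Q • (Y * Z) - (Q - 1) • 1 := by rw [← hYZ]; abel
  have h3 : Z * X = Q⁻¹ • (X * Z) + (1 - Q⁻¹) • 1 := by
    have : Z * X = Q⁻¹ • (Q • (Z * X)) := by rw [smul_smul, inv_mul_cancel₀ hQ0, one_smul]
    rw [this, sub_eq_iff_eq_add.1 hZX, smul_add, smul_smul, mul_sub, inv_mul_cancel₀ hQ0, mul_one,
      add_comm]
  have h4 : Y * Z * (X * Y) = Q⁻¹ • ((Y * X) * (Z * Y)) + (1 - Q⁻¹) • (Y * Y) := by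
    have : Y * Z * (X * Y) = Y * (Z * X) * Y := by simp only [mul_assoc]
    rw [this, h3, mul_add, add_mul, mul_smul_comm, smul_mul_assoc, mul_smul_comm, mul_one,
      smul_mul_assoc]
    simp only [mul_assoc]
  have h5 : (Y * X) * (Z * Y) = (Q * Q) • (X * Y * (Y * Z)) - (Q * (Q - 1)) • (X * Y + Y * Z) +
      ((Q - 1) * (Q - 1)) • 1 := by
    rw [h1, h2]
    simp only [sub_mul, mul_sub, smul_mul_assoc, mul_smul_comm, one_mul, mul_one]
    module
  have h6 : (1 - Y * Z) * (1 - X * Y) = 1 - X * Y - Y * Z + Y * Z * (X * Y) := by noncomm_ring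
  have h7 : (1 - X * Y) * (1 - Y * Z) = 1 - X * Y - Y * Z + X * Y * (Y * Z) := by noncomm_ring
  rw [h6, h7, h4, h5]
  have e1 : Q⁻¹ * Q = 1 := inv_mul_cancel₀ hQ0
  have e2 : Q⁻¹ • ((Q * Q) • (X * Y * (Y * Z)) - (Q * (Q - 1)) • (X * Y + Y * Z) +
      ((Q - 1) * (Q - 1)) • (1 : Module.End K V)) =
      Q • (X * Y * (Y * Z)) - (Q - 1) • (X * Y + Y * Z) + (Q - 2 + Q⁻¹) • 1 := by
    rw [smul_add, smul_sub, smul_smul, smul_smul, smul_smul]
    congr 1
    · congr 1
      · congr 1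
        rw [← mul_assoc, e1, one_mul]
      · congr 1
        rw [← mul_assoc, e1, one_mul]
    · congr 1
      field_simp
      ring
  rw [e2]
  module

omit [FiniteDimensional K V] in
/-- `Y² F^m = Q^(2m) F^m Y²`. -/
lemma YY_Fpow (Y F : Module.End K V) (h : Y * F = Q • (F * Y)) (m : ℕ) :
    Y * F ^ m = Q ^ m • (F ^ m * Y) := by
  induction m with
  | zero => simp
  | succ m ih =>
    rw [pow_succ, ← mul_assoc, ih, smul_mul_assoc, mul_assoc, h, mul_smul_comm, smul_smul,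
      ← mul_assoc, pow_succ Q]

omit [FiniteDimensional K V] in
/-- `E F^(n+1)` on the kernel of `E`. -/
lemma E_Fpow (hQ0 : Q ≠ 0) (Y E F : Module.End K V) (hYF : Y * F = Q • (F * Y))
    (hEF : E * F = Q • (F * E) - (1 - Q⁻¹) • (1 - Y * Y)) (w : V) (hw : E w = 0) (n : ℕ) :
    E ((F ^ (n + 1)) w) = (-(Q⁻¹ * (Q ^ (n + 1) - 1))) • (F ^ n) (w - Q ^ n • Y (Y w)) := by
  have happ : ∀ u : V, E (F u) = Q • F (E u) - (1 - Q⁻¹) • (u - Y (Y u)) := fun u => by
    have := DFunLike.congr_fun hEF u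
    simpa using this
  induction n with
  | zero =>
    rw [zero_add, pow_one, happ, hw]
    simp only [map_zero, smul_zero, zero_sub, pow_one, pow_zero, Module.End.one_apply, one_smul]
    rw [← neg_smul]
    congr 1
    field_simp
  | succ n ih =>
    have h1 : ∀ u : V, (F ^ (n + 1 + 1)) u = F ((F ^ (n + 1)) u) := fun u => by
      rw [pow_succ', Module.End.mul_apply]
    have h2 : Y (Y ((F ^ (n + 1)) w)) = (Q ^ (n + 1) * Q ^ (n + 1)) • (F ^ (n + 1)) (Y (Y w)) := by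
      have h3 : ∀ u : V, Y ((F ^ (n + 1)) u) = Q ^ (n + 1) • (F ^ (n + 1)) (Y u) := fun u => by
        have := DFunLike.congr_fun (YY_Fpow Y F hYF (n + 1)) u
        simpa using this
      rw [h3, map_smul, h3, smul_smul]
    have h4 : ∀ u : V, F ((F ^ n) u) = (F ^ (n + 1)) u := fun u => by
      rw [pow_succ', Module.End.mul_apply]
    rw [h1, happ, ih, h2, map_smul, h4, map_sub, map_sub, map_smul, map_smul]
    have e1 : Q * (-(Q⁻¹ * (Q ^ (n + 1) - 1))) = -(Q ^ (n + 1) - 1) := by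
      field_simp
    rw [smul_smul, e1]
    have e2 : Q⁻¹ * (Q ^ (n + 1 + 1) - 1) = Q ^ (n + 1) - Q⁻¹ := by
      rw [mul_sub, mul_one, pow_succ (Q) (n + 1), mul_comm (Q ^ (n + 1)) Q, ← mul_assoc,
        inv_mul_cancel₀ hQ0, one_mul]
    rw [e2]
    have e3 : Q ^ (n + 1) * Q ^ (n + 1) * (1 - Q⁻¹) =
        Q ^ (n + 1) * Q ^ (n + 1) - Q ^ (n + 1) * Q ^ n := by
      rw [pow_succ Q n]
      field_simp
    rw [smul_sub, smul_sub, smul_sub, smul_smul, smul_smul, smul_smul]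
    have e4 : (1 - Q⁻¹) * (Q ^ (n + 1) * Q ^ (n + 1)) =
        Q ^ (n + 1) * Q ^ (n + 1) - Q ^ (n + 1) * Q ^ n := by rw [mul_comm, e3]
    rw [e4]
    have e5 : Q⁻¹ * Q ^ (n + 1) = Q ^ n := by
      rw [pow_succ', ← mul_assoc, inv_mul_cancel₀ hQ0, one_mul]
    have e6 : -(Q ^ (n + 1) - Q⁻¹) * Q ^ (n + 1) = -(Q ^ (n + 1) * Q ^ (n + 1)) + Q ^ n := by
      rw [neg_sub, sub_mul, e5]
      ring
    rw [e6]
    module

omit [FiniteDimensional K V] in
/-- Existence of a primitive vector, with nonzero eigenvalue. -/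
theorem exists_prim [Nontrivial V] (q : K) (hq0 : q ≠ 0) (hq : ∀ n : ℕ, n ≠ 0 → (q ^ 2) ^ n ≠ 1)
    (Y E F : Module.End K V) (hE : IsNilpotent E) (hF : IsNilpotent F)
    (hYF : Y * F = (q ^ 2) • (F * Y)) (hEY : E * Y = (q ^ 2) • (Y * E))
    (hEF : E * F = (q ^ 2) • (F * E) - (1 - (q ^ 2)⁻¹) • (1 - Y * Y)) :
    ∃ (v : V) (μ : K), v ≠ 0 ∧ E v = 0 ∧ Y v = μ • v ∧ μ ≠ 0 := by
  have hQ0 : q ^ 2 ≠ 0 := pow_ne_zero _ hq0
  obtain ⟨v, hv0, hv⟩ : ∃ v : V, v ≠ 0 ∧ E v = 0 := by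
    by_contra hcon
    push Not at hcon
    have hinj : Function.Injective E := by
      rw [injective_iff_map_eq_zero]
      intro a ha
      by_contra h0
      exact hcon a h0 ha
    obtain ⟨n, hn⟩ := hE
    obtain ⟨v, hv⟩ := exists_ne (0 : V)
    have h1 : ∀ m, (E ^ m) v ≠ 0 := by
      intro m
      induction m with
      | zero => simpa using hv
      | succ m ih =>
        rw [pow_succ', Module.End.mul_apply]
        exact fun h2 => ih (hinj (h2.trans (map_zero E).symm))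
    exact h1 n (by rw [hn]; rfl)
  have hEYk : ∀ w, E w = 0 → E (Y w) = 0 := by
    intro w hw
    have := DFunLike.congr_fun hEY w
    simpa [hw] using this
  have hpk : ∀ (r : K[X]) (w : V), E w = 0 → E (aeval Y r w) = 0 := by
    intro r w hw
    induction r using Polynomial.induction_on' with
    | add p q hp hq => rw [map_add, LinearMap.add_apply, map_add, hp, hq, add_zero]
    | monomial n a =>
      rw [← C_mul_X_pow_eq_monomial]
      simp only [map_mul, aeval_C, map_pow, aeval_X, Module.algebraMap_end_eq_smul_id,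
        Module.End.mul_apply, LinearMap.smul_apply, LinearMap.id_apply, map_smul]
      have : E ((Y ^ n) w) = 0 := by
        induction n with
        | zero => simpa using hw
        | succ n ih => rw [pow_succ', Module.End.mul_apply]; exact hEYk _ ih
      rw [this, smul_zero]
  -- the product of linear factors
  obtain ⟨g, hg⟩ : ∃ g : ℕ → K[X], g = fun k => (1 + C (q ^ k) * X) * (1 - C (q ^ k) * X) :=
    ⟨_, rfl⟩
  have hgapp : ∀ k w, aeval Y (g k) w = w - (q ^ 2) ^ k • Y (Y w) := by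
    intro k w
    rw [hg]
    simp only [map_mul, map_add, map_sub, map_one, aeval_C, aeval_X,
      Module.algebraMap_end_eq_smul_id, Module.End.mul_apply, LinearMap.add_apply,
      LinearMap.sub_apply, Module.End.one_apply, LinearMap.smul_apply, LinearMap.id_apply,
      map_sub, map_smul]
    have : (q ^ 2) ^ k = q ^ k * q ^ k := by rw [← pow_mul, two_mul, pow_add]
    rw [this, smul_add, smul_smul]
    abel
  have hmulapp : ∀ (r s : K[X]) (w : V), aeval Y (r * s) w = aeval Y r (aeval Y s w) := by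
    intro r s w
    rw [map_mul, Module.End.mul_apply]
  have hc : ∀ n : ℕ, -((q ^ 2)⁻¹ * ((q ^ 2) ^ (n + 1) - 1)) ≠ 0 := by
    intro n
    exact neg_ne_zero.2 (mul_ne_zero (inv_ne_zero hQ0)
      (sub_ne_zero.2 (hq (n + 1) (Nat.succ_ne_zero n))))
  have key : ∀ n : ℕ, ∃ c : K, c ≠ 0 ∧ ∀ w, E w = 0 →
      (E ^ n) ((F ^ n) w) = c • (aeval Y (∏ k ∈ Finset.range n, g k)) w := by
    intro n
    induction n with
    | zero => exact ⟨1, one_ne_zero, fun w _ => by simp⟩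
    | succ n ih =>
      obtain ⟨c, hc0, hcw⟩ := ih
      refine ⟨c * (-((q ^ 2)⁻¹ * ((q ^ 2) ^ (n + 1) - 1))), mul_ne_zero hc0 (hc n), fun w hw => ?_⟩
      rw [pow_succ E n, Module.End.mul_apply, E_Fpow hQ0 Y E F hYF hEF w hw n, map_smul,
        ← hgapp, hcw _ (hpk _ w hw), Finset.prod_range_succ, hmulapp, smul_smul, mul_comm c]
  obtain ⟨N, hN⟩ := hF
  have hzero : (aeval Y (∏ k ∈ Finset.range N, g k)) v = 0 := by
    obtain ⟨c, hc0, hcw⟩ := key N
    have := hcw v hv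
    rw [hN, LinearMap.zero_apply, map_zero] at this
    rcases smul_eq_zero.1 this.symm with h1 | h1
    · exact absurd h1 hc0
    · exact h1
  classical
  have hex : ∃ n : ℕ, (aeval Y (∏ k ∈ Finset.range n, g k)) v = 0 := ⟨N, hzero⟩
  obtain ⟨m, hm⟩ : ∃ m, m = Nat.find hex := ⟨_, rfl⟩
  have hm0 : (aeval Y (∏ k ∈ Finset.range m, g k)) v = 0 := hm ▸ Nat.find_spec hex
  have hmpos : m ≠ 0 := by
    intro h0
    rw [h0] at hm0
    simp at hm0
    exact hv0 hm0
  obtain ⟨n, hn⟩ := Nat.exists_eq_succ_of_ne_zero hmpos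
  obtain ⟨u, hu⟩ : ∃ u, u = (aeval Y (∏ k ∈ Finset.range n, g k)) v := ⟨_, rfl⟩
  have hu0 : u ≠ 0 := hu ▸ Nat.find_min hex (by omega)
  have huE : E u = 0 := hu ▸ hpk _ v hv
  rw [hn, Nat.succ_eq_add_one, Finset.prod_range_succ, mul_comm, hmulapp, ← hu, hg] at hm0
  simp only at hm0
  rw [hmulapp] at hm0
  have hqn : q ^ n ≠ 0 := pow_ne_zero _ hq0
  by_cases h1 : aeval Y (1 - C (q ^ n) * X) u = 0
  · refine ⟨u, (q ^ n)⁻¹, hu0, huE, ?_, inv_ne_zero hqn⟩
    simp only [map_mul, map_sub, map_one, aeval_C, aeval_X,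
      Module.algebraMap_end_eq_smul_id, Module.End.mul_apply,
      LinearMap.sub_apply, Module.End.one_apply, LinearMap.smul_apply, LinearMap.id_apply] at h1
    have h2 : u = q ^ n • Y u := sub_eq_zero.1 h1
    conv_rhs => rw [h2, smul_smul, inv_mul_cancel₀ hqn, one_smul]
  · refine ⟨aeval Y (1 - C (q ^ n) * X) u, -(q ^ n)⁻¹, h1, hpk _ u huE, ?_,
      neg_ne_zero.2 (inv_ne_zero hqn)⟩
    generalize aeval Y (1 - C (q ^ n) * X) u = z at hm0
    simp only [map_mul, map_add, map_one, aeval_C, aeval_X,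
      Module.algebraMap_end_eq_smul_id, Module.End.mul_apply,
      LinearMap.add_apply, Module.End.one_apply, LinearMap.smul_apply, LinearMap.id_apply] at hm0
    have h2 : z = -(q ^ n • Y z) := eq_neg_of_add_eq_zero_left hm0
    have h3 : (q ^ n)⁻¹ • z = -Y z := by
      conv_lhs => rw [h2]
      rw [smul_neg, smul_smul, inv_mul_cancel₀ hqn, one_smul]
    rw [neg_smul, h3, neg_neg]

end EF

/-! ### Four-dimensional irreducible modules -/

/-- Structure of a four-dimensional irreducible module. -/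
theorem structure4 (hV : finrank K V = 4) (q : K) (hq0 : q ≠ 0)
    (hq : ∀ n : ℕ, n ≠ 0 → (q ^ 2) ^ n ≠ 1) (X Y Z : Module.End K V)
    (hXY : q ^ 2 • (X * Y) - Y * X = (q ^ 2 - 1) • 1)
    (hYZ : q ^ 2 • (Y * Z) - Z * Y = (q ^ 2 - 1) • 1)
    (hZX : q ^ 2 • (Z * X) - X * Z = (q ^ 2 - 1) • 1)
    (hirr : ∀ W : Submodule K V, (∀ w ∈ W, X w ∈ W) → (∀ w ∈ W, Y w ∈ W) → (∀ w ∈ W, Z w ∈ W) →
      W = ⊥ ∨ W = ⊤) :
    ∃ (b : Basis (Fin 4) K V) (μ : K), μ ≠ 0 ∧ (q ^ 2) ^ 3 * μ ^ 2 = 1 ∧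
      (Y (b 0) = μ • b 0 ∧ Y (b 1) = (μ * q ^ 2) • b 1 ∧ Y (b 2) = (μ * (q ^ 2) ^ 2) • b 2 ∧
        Y (b 3) = (μ * (q ^ 2) ^ 3) • b 3) ∧
      (X (b 0) = μ⁻¹ • (b 0 - b 1) ∧ X (b 1) = (μ * q ^ 2)⁻¹ • (b 1 - b 2) ∧
        X (b 2) = (μ * (q ^ 2) ^ 2)⁻¹ • (b 2 - b 3) ∧ X (b 3) = (μ * (q ^ 2) ^ 3)⁻¹ • b 3) ∧
      (Z (b 0) = μ⁻¹ • b 0 ∧
        Z (b 1) = (μ * q ^ 2)⁻¹ • (b 1 + ((q ^ 2 - 1) * (1 - μ ^ 2)) • b 0) ∧
        Z (b 2) = (μ * (q ^ 2) ^ 2)⁻¹ • (b 2 + (((q ^ 2) ^ 2 - 1) * (1 - q ^ 2 * μ ^ 2)) • b 1) ∧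
        Z (b 3) = (μ * (q ^ 2) ^ 3)⁻¹ •
          (b 3 + (((q ^ 2) ^ 3 - 1) * (1 - (q ^ 2) ^ 2 * μ ^ 2)) • b 2)) := by
  have : Nontrivial V := Module.nontrivial_of_finrank_pos (R := K) (by omega)
  obtain ⟨Q, hQ⟩ : ∃ Q, Q = q ^ 2 := ⟨_, rfl⟩
  have hQ0 : Q ≠ 0 := hQ ▸ pow_ne_zero _ hq0
  have hXY' := hXY
  have hYZ' := hYZ
  have hZX' := hZX
  rw [← hQ] at hXY' hYZ' hZX'
  have hYinj : Function.Injective Y := inj_Y X Y Q (hQ ▸ hq) hXY'
  obtain ⟨E, hE⟩ : ∃ E : Module.End K V, E = 1 - Y * Z := ⟨_, rfl⟩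
  obtain ⟨F, hF⟩ : ∃ F : Module.End K V, F = 1 - X * Y := ⟨_, rfl⟩
  have hYF : Y * F = Q • (F * Y) := by rw [hF]; exact Y_F hXY'
  have hEY : E * Y = Q • (Y * E) := by rw [hE]; exact E_Y hYZ'
  have hEF : E * F = Q • (F * E) - (1 - Q⁻¹) • (1 - Y * Y) := by
    rw [hE, hF]
    exact E_F hQ0 hXY' hYZ' hZX'
  have hEnil : IsNilpotent E := qnilp Y E Q hQ0 (hQ ▸ hq) hYinj hEY
  have hFnil : IsNilpotent F := by
    refine qnilp Y F Q⁻¹ (inv_ne_zero hQ0) ?_ hYinj ?_
    · intro n hn h1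
      rw [inv_pow, inv_eq_one] at h1
      rw [hQ] at h1
      exact hq n hn h1
    · rw [hYF, smul_smul, inv_mul_cancel₀ hQ0, one_smul]
  obtain ⟨v, μ, hv0, hEv, hYv, hμ0⟩ := exists_prim q hq0 hq Y E F hEnil hFnil (hQ ▸ hYF)
    (hQ ▸ hEY) (hQ ▸ hEF)
  clear hXY hYZ hZX
  rw [← hQ] at hq
  rw [← hQ]
  clear hQ
  -- the action on `F ^ i v`
  have hYw : ∀ i : ℕ, Y ((F ^ i) v) = (μ * Q ^ i) • (F ^ i) v := by
    intro i
    have := DFunLike.congr_fun (YY_Fpow Y F hYF i) v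
    simp only [Module.End.mul_apply, LinearMap.smul_apply, hYv, map_smul, smul_smul] at this
    rw [this, mul_comm]
  have hFw : ∀ i : ℕ, F ((F ^ i) v) = (F ^ (i + 1)) v := by
    intro i
    rw [pow_succ', Module.End.mul_apply]
  have hEw : ∀ i : ℕ, E ((F ^ (i + 1)) v) =
      (-(Q⁻¹ * (Q ^ (i + 1) - 1)) * (1 - Q ^ i * μ ^ 2)) • (F ^ i) v := by
    intro i
    rw [E_Fpow hQ0 Y E F hYF hEF v hEv i, hYv, map_smul, hYv, smul_smul, smul_smul]
    have : v - (Q ^ i * μ * μ) • v = (1 - Q ^ i * μ ^ 2) • v := by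
      rw [sub_smul, one_smul, sq, mul_assoc]
    rw [this, map_smul, smul_smul]
  have hne : ∀ i : ℕ, μ * Q ^ i ≠ 0 := fun i => mul_ne_zero hμ0 (pow_ne_zero _ hQ0)
  have hXw : ∀ i : ℕ, X ((F ^ i) v) = (μ * Q ^ i)⁻¹ • ((F ^ i) v - (F ^ (i + 1)) v) := by
    intro i
    have h1 : X (Y ((F ^ i) v)) = (F ^ i) v - (F ^ (i + 1)) v := by
      rw [← hFw, hF]
      simp
    rw [hYw, map_smul] at h1
    rw [← h1, smul_smul, inv_mul_cancel₀ (hne i), one_smul]
  have hZY : Z * Y = 1 - Q • E := by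
    have : Z * Y = Q • (Y * Z) - (Q - 1) • 1 := by rw [← hYZ']; abel
    rw [this, hE]
    module
  have hZw : ∀ i : ℕ, Z ((F ^ i) v) = (μ * Q ^ i)⁻¹ • ((F ^ i) v - Q • E ((F ^ i) v)) := by
    intro i
    have h1 : Z (Y ((F ^ i) v)) = (F ^ i) v - Q • E ((F ^ i) v) := by
      rw [← Module.End.mul_apply, hZY]
      simp
    rw [hYw, map_smul] at h1
    rw [← h1, smul_smul, inv_mul_cancel₀ (hne i), one_smul]
  have hZw0 : Z ((F ^ 0) v) = (μ * Q ^ 0)⁻¹ • (F ^ 0) v := by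
    rw [hZw 0, pow_zero F, Module.End.one_apply, hEv, smul_zero, sub_zero]
  have hZw1 : ∀ i : ℕ, Z ((F ^ (i + 1)) v) = (μ * Q ^ (i + 1))⁻¹ •
      ((F ^ (i + 1)) v + ((Q ^ (i + 1) - 1) * (1 - Q ^ i * μ ^ 2)) • (F ^ i) v) := by
    intro i
    rw [hZw, hEw, smul_smul]
    have : Q * (-(Q⁻¹ * (Q ^ (i + 1) - 1)) * (1 - Q ^ i * μ ^ 2)) =
        -((Q ^ (i + 1) - 1) * (1 - Q ^ i * μ ^ 2)) := by
      field_simp
    rw [this, neg_smul, sub_neg_eq_add]
  -- the span of all `F ^ i v` is everything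
  have hspan : Submodule.span K (Set.range fun i : ℕ => (F ^ i) v) = ⊤ := by
    have hmem : ∀ i : ℕ, (F ^ i) v ∈ Submodule.span K (Set.range fun i : ℕ => (F ^ i) v) :=
      fun i => Submodule.subset_span ⟨i, rfl⟩
    have hinv : ∀ g : Module.End K V, (∀ i : ℕ, g ((F ^ i) v) ∈
        Submodule.span K (Set.range fun i : ℕ => (F ^ i) v)) →
        ∀ w ∈ Submodule.span K (Set.range fun i : ℕ => (F ^ i) v),
          g w ∈ Submodule.span K (Set.range fun i : ℕ => (F ^ i) v) := by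
      intro g hg w hw'
      induction hw' using Submodule.span_induction with
      | mem x hx => obtain ⟨i, rfl⟩ := hx; exact hg i
      | zero => rw [map_zero]; exact Submodule.zero_mem _
      | add x y _ _ hx hy => rw [map_add]; exact Submodule.add_mem _ hx hy
      | smul a x _ hx => rw [map_smul]; exact Submodule.smul_mem _ _ hx
    rcases hirr (Submodule.span K (Set.range fun i : ℕ => (F ^ i) v))
      (hinv X fun i => by
        rw [hXw]
        exact Submodule.smul_mem _ _ (Submodule.sub_mem _ (hmem i) (hmem (i + 1))))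
      (hinv Y fun i => by rw [hYw]; exact Submodule.smul_mem _ _ (hmem i))
      (hinv Z fun i => by
        cases i with
        | zero => rw [hZw0]; exact Submodule.smul_mem _ _ (hmem 0)
        | succ i =>
          rw [hZw1]
          exact Submodule.smul_mem _ _ (Submodule.add_mem _ (hmem _)
            (Submodule.smul_mem _ _ (hmem i)))) with h1 | h1
    · exfalso
      apply hv0
      have := hmem 0
      rw [h1] at this
      simpa using this
    · exact h1
  -- the least `m` with `F ^ m v = 0`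
  classical
  have hex : ∃ n : ℕ, (F ^ n) v = 0 := by
    obtain ⟨n, hn⟩ := hFnil
    exact ⟨n, by rw [hn]; rfl⟩
  obtain ⟨m, hm⟩ : ∃ m, m = Nat.find hex := ⟨_, rfl⟩
  have hm0 : (F ^ m) v = 0 := hm ▸ Nat.find_spec hex
  have hlt : ∀ i, i < m → (F ^ i) v ≠ 0 := fun i hi => Nat.find_min hex (hm ▸ hi)
  have hge : ∀ i, m ≤ i → (F ^ i) v = 0 := by
    intro i hi
    obtain ⟨k, rfl⟩ := Nat.exists_eq_add_of_le hi
    rw [add_comm, pow_add, Module.End.mul_apply, hm0, map_zero]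
  have hinjQ : ∀ i j : ℕ, Q ^ i = Q ^ j → i = j := by
    have aux : ∀ i j : ℕ, i < j → Q ^ i = Q ^ j → False := by
      intro i j hij h1
      obtain ⟨k, rfl⟩ := Nat.exists_eq_add_of_lt hij
      have h2 : Q ^ i * Q ^ (k + 1) = Q ^ i * 1 := by
        rw [← pow_add, mul_one, ← add_assoc, ← h1]
      exact hq (k + 1) (by omega) (mul_left_cancel₀ (pow_ne_zero _ hQ0) h2)
    intro i j h1
    rcases lt_trichotomy i j with h2 | h2 | h2
    · exact (aux i j h2 h1).elim
    · exact h2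
    · exact (aux j i h2 h1.symm).elim
  have hli : LinearIndependent K (fun i : Fin m => (F ^ (i : ℕ)) v) := by
    refine Module.End.eigenvectors_linearIndependent' Y (fun i : Fin m => μ * Q ^ (i : ℕ)) ?_ _ ?_
    · intro i j hij
      exact Fin.ext (hinjQ _ _ (mul_left_cancel₀ hμ0 hij))
    · intro i
      exact ⟨Module.End.mem_eigenspace_iff.2 (hYw i), hlt i i.2⟩
  have hsp : Submodule.span K (Set.range fun i : Fin m => (F ^ (i : ℕ)) v) = ⊤ := by
    rw [eq_top_iff, ← hspan, Submodule.span_le]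
    rintro _ ⟨i, rfl⟩
    by_cases hi : i < m
    · exact Submodule.subset_span ⟨⟨i, hi⟩, rfl⟩
    · change (F ^ i) v ∈ _
      rw [hge i (by omega)]
      exact Submodule.zero_mem _
  let b := Basis.mk hli hsp.ge
  have hm4 : m = 4 := by
    have := Module.finrank_eq_card_basis b
    rw [hV, Fintype.card_fin] at this
    exact this.symm
  clear hm
  subst hm4
  have hμ : Q ^ 3 * μ ^ 2 = 1 := by
    have h1 := hEw 3
    rw [show (3 : ℕ) + 1 = 4 from rfl, hm0, map_zero] at h1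
    rcases smul_eq_zero.1 h1.symm with h3 | h3
    · rcases mul_eq_zero.1 h3 with h4 | h4
      · exfalso
        rcases mul_eq_zero.1 (neg_eq_zero.1 h4) with h5 | h5
        · exact inv_ne_zero hQ0 h5
        · exact hq 4 (by norm_num) (sub_eq_zero.1 h5)
      · exact (sub_eq_zero.1 h4).symm
    · exact absurd h3 (hlt 3 (by norm_num))
  have hb : ∀ i : Fin 4, b i = (F ^ (i : ℕ)) v := fun i => by simp [b]
  have hb0 : b 0 = (F ^ 0) v := hb 0
  have hb1 : b 1 = (F ^ 1) v := hb 1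
  have hb2 : b 2 = (F ^ 2) v := hb 2
  have hb3 : b 3 = (F ^ 3) v := hb 3
  refine ⟨b, μ, hμ0, hμ, ⟨?_, ?_, ?_, ?_⟩, ⟨?_, ?_, ?_, ?_⟩, ⟨?_, ?_, ?_, ?_⟩⟩
  · rw [hb0, hYw, pow_zero Q, mul_one]
  · rw [hb1, hYw, pow_one Q]
  · rw [hb2, hYw]
  · rw [hb3, hYw]
  · rw [hb0, hb1, hXw, pow_zero Q, mul_one]
  · rw [hb1, hb2, hXw, pow_one Q]
  · rw [hb2, hb3, hXw]
  · rw [hb3, hXw, show (F ^ (3 + 1)) v = 0 from hm0, sub_zero]
  · rw [hb0, hZw0, pow_zero Q, mul_one]
  · rw [hb1, hb0, hZw1 0]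
    simp
  · rw [hb2, hb1, hZw1 1]
    simp
  · rw [hb3, hb2, hZw1 2]

end Gen

end Pool.Agent.X277.LQ
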